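import Mathlib

namespace Pool.Agent.H.MP_5d9c5f_lc
open Finset Classical

abbrev Dt := ℕ × Bool
def rv (d : Dt) : Dt := (d.1, !d.2)
@[simp] theorem rv_rv (d : Dt) : rv (rv d) = d := by simp [rv]
theorem rv_ne (d : Dt) : rv d ≠ d := by simp [rv, Prod.ext_iff]

variable {V : Type} (tl : Dt → V)

def out (T : Set V) (d : Dt) : Prop := tl d ∈ T ∧ tl (rv d) ∉ T
noncomputable def ind (T : Set V) (v : V) : ℤ := if v ∈ T then 1 else 0
noncomputable def val (S : Finset Dt) (T : Set V) : ℤ := ∑ d ∈ S, (ind T (tl d) - ind T (tl (rv d)))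
def Flow (S : Finset Dt) (s t : V) (k : ℕ) : Prop := ∀ T, val tl S T = k * (ind T s - ind T t)
def Conn (X : Finset Dt) (s t : V) (k : ℕ) : Prop := ∀ T, s ∈ T → t ∉ T → k ≤ (X.filter (out tl T)).card

theorem val_eq (S : Finset Dt) (T : Set V) :
    val tl S T = (S.filter (out tl T)).card - ((S.filter fun d => out tl T (rv d)).card : ℤ) := by
  rw [card_filter, card_filter, val]
  push_cast
  rw [← sum_sub_distrib]
  refine sum_congr rfl fun d _ => ?_
  simp only [ind, out, rv_rv]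
  by_cases h1 : tl d ∈ T <;> by_cases h2 : tl (rv d) ∈ T <;> simp [h1, h2]

variable {tl}

theorem Conn.mono {X Y : Finset Dt} {s t : V} {k : ℕ} (h : Conn tl X s t k) (hs : X ⊆ Y) : Conn tl Y s t k :=
  fun T h1 h2 => (h T h1 h2).trans (card_le_card (filter_subset_filter _ hs))

theorem Flow.conn {S : Finset Dt} {s t : V} {k : ℕ} (h : Flow tl S s t k) : Conn tl S s t k := fun T h1 h2 => by
  have := h T
  rw [val_eq] at this
  simp only [ind, h1, h2, if_true, if_false] at this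
  omega

theorem aug {X S : Finset Dt} {s t : V} {k : ℕ} (hS : S ⊆ X) (hf : Flow tl S s t k) (hc : Conn tl X s t (k + 1)) :
    ∃ S' ⊆ X, Flow tl S' s t (k + 1) := by
  let P : Set V → V → Prop := fun W v => ∃ S' ⊆ X,
    (∀ T, val tl S' T = k * (ind T s - ind T t) + (ind T s - ind T v)) ∧
      ∀ d, ¬(tl d ∈ W ∧ tl (rv d) ∈ W) → (d ∈ S' ↔ d ∈ S)
  have mono : ∀ W W' v, W ⊆ W' → P W v → P W' v := fun W W' v h ⟨S', a, b, c⟩ =>
    ⟨S', a, b, fun d hd => c d fun h' => hd ⟨h h'.1, h h'.2⟩⟩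
  let W : Set V := {v | ∃ U : Set V, v ∈ U ∧ ∀ u ∈ U, P U u}
  have hW : ∀ v ∈ W, P W v := fun v ⟨U, h1, h2⟩ => mono U W v (fun u hu => ⟨U, hu, h2⟩) (h2 v h1)
  have ext : ∀ v, P (insert v W) v → v ∈ W := fun v h => ⟨insert v W, Set.mem_insert _ _, fun u hu => by
    rcases hu with rfl | hu
    · exact h
    · exact mono _ _ _ (Set.subset_insert _ _) (hW u hu)⟩
  have hs : s ∈ W := ext s ⟨S, hS, fun T => by rw [hf T]; ring, fun _ _ => Iff.rfl⟩
  by_cases ht : t ∈ W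
  · obtain ⟨S', a, b, _⟩ := hW t ht
    exact ⟨S', a, fun T => by rw [b T]; push_cast; ring⟩
  exfalso
  have h1 : ∀ d ∈ X, out tl W d → d ∈ S := fun d hd ho => by
    by_contra hn
    obtain ⟨S', a, b, c⟩ := hW _ ho.1
    have hn' : d ∉ S' := fun h => hn ((c d fun h => ho.2 h.2).1 h)
    refine ho.2 (ext _ ⟨insert d S', insert_subset hd a, fun T => ?_, fun e he => ?_⟩)
    · have := b T
      rw [val] at this
      rw [val, sum_insert hn', this]; ring
    · have : e ≠ d := by rintro rfl; exact he ⟨Or.inr ho.1, Or.inl rfl⟩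
      rw [mem_insert, ← c e fun h => he ⟨Or.inr h.1, Or.inr h.2⟩]; simp [this]
  have h2 : ∀ d ∈ S, ¬out tl W (rv d) := fun d hd ho => by
    obtain ⟨S', a, b, c⟩ := hW _ ho.1
    have ho2 : tl d ∉ W := by simpa using ho.2
    have hd' : d ∈ S' := (c d fun h => ho2 h.1).2 hd
    refine ho2 (ext _ ⟨S'.erase d, (erase_subset _ _).trans a, fun T => ?_, fun e he => ?_⟩)
    · have := b T
      rw [val, ← add_sum_erase _ _ hd'] at this
      rw [val]; linarith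
    · have : e ≠ d := by rintro rfl; exact he ⟨Or.inl rfl, Or.inr ho.1⟩
      rw [mem_erase, ← c e fun h => he ⟨Or.inr h.1, Or.inr h.2⟩]; simp [this]
  have h3 := hf W
  rw [val_eq, filter_false_of_mem h2] at h3
  have h4 := hc W hs ht
  have h5 : (X.filter (out tl W)).card ≤ (S.filter (out tl W)).card :=
    card_le_card fun d hd => by rw [mem_filter] at hd ⊢; exact ⟨h1 d hd.1 hd.2, hd.2⟩
  simp only [ind, hs, ht, if_true, if_false, card_empty] at h3
  omega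

theorem exists_flow {X : Finset Dt} {s t : V} {k : ℕ} (hc : Conn tl X s t k) :
    ∃ S ⊆ X, Flow tl S s t k ∧ ∀ d ∈ S, rv d ∉ S := by
  have : ∃ S ⊆ X, Flow tl S s t k := by
    induction k with
    | zero => exact ⟨∅, empty_subset _, fun T => by simp [val]⟩
    | succ k ih =>
      obtain ⟨S, a, b⟩ := ih fun T h1 h2 => (Nat.le_succ _).trans (hc T h1 h2)
      exact aug a b hc
  obtain ⟨S, a, b⟩ := this
  refine ⟨S.filter fun d => rv d ∉ S, (filter_subset _ _).trans a, fun T => ?_, fun d hd h => ?_⟩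
  · rw [← b T, val, val, ← sum_filter_add_sum_filter_not S fun d => rv d ∉ S]
    have : ∑ d ∈ S.filter fun d => ¬rv d ∉ S, (ind T (tl d) - ind T (tl (rv d))) = 0 :=
      sum_involution (fun d _ => rv d) (fun d _ => by simp) (fun d _ _ => rv_ne d)
        (fun d hd => by simp only [mem_filter, not_not, rv_rv] at hd ⊢; exact hd.symm) (fun d _ => rv_rv d)
    rw [this, add_zero]
  · simp only [mem_filter] at hd h; exact hd.2 h.1

variable (tl) in
def K (X : Finset Dt) (s t : V) (a b : Dt) : Prop := ∃ Z, s ∈ Z ∧ t ∉ Z ∧ ∀ d ∈ X, out tl Z d → d = a ∨ d = b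

variable (tl) in
def crit (X : Finset Dt) (s t : V) (a : Dt) : Prop := K tl X s t a a ∨ ∃ b, ¬K tl X s t b b ∧ K tl X s t a b

theorem two_cover {F : Finset Dt} (h : F.card ≤ 2) (hn : F.Nonempty) : ∃ a ∈ F, ∃ b ∈ F, ∀ d ∈ F, d = a ∨ d = b := by
  obtain ⟨a, ha⟩ := hn
  by_cases h1 : ∀ d ∈ F, d = a
  · exact ⟨a, ha, a, ha, fun d hd => Or.inl (h1 d hd)⟩
  push Not at h1
  obtain ⟨b, hb, hab⟩ := h1
  refine ⟨a, ha, b, hb, fun d hd => ?_⟩
  by_contra hh
  push Not at hh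
  have := two_lt_card_iff.2 ⟨d, a, b, hd, ha, hb, hh.1, hh.2, hab.symm⟩
  omega

theorem claim1 {X : Finset Dt} {s t : V} {Bn : Dt → Prop} (h0 : Conn tl X s t 1)
    (H : ∀ a b, Bn a → Bn b → ¬K tl X s t a b) (n : ℕ) : ∀ R : Set V, (X.filter (out tl R)).card = n → s ∈ R → t ∉ R →
      ¬∀ d ∈ X, out tl R d → crit tl X s t d ∧ Bn d := by
  induction n using Nat.strong_induction_on with
  | _ n ih =>
  intro R hn hs ht hR
  have sub : ∀ R' : Set V, s ∈ R' → t ∉ R' → (∀ d ∈ X, out tl R' d → out tl R d) → ∀ d ∈ X, out tl R d → out tl R' d := by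
    intro R' h1 h2 h3 d hd ho
    by_contra hh
    refine ih _ ?_ R' rfl h1 h2 fun e he h => hR e he (h3 e he h)
    rw [← hn]
    refine card_lt_card ⟨fun e he => ?_, fun h => ?_⟩
    · rw [mem_filter] at he ⊢; exact ⟨he.1, h3 e he.1 he.2⟩
    · exact hh (mem_filter.1 (h (mem_filter.2 ⟨hd, ho⟩))).2
  by_cases h2 : n ≤ 2
  · obtain ⟨a, ha, b, hb, h⟩ := two_cover (hn ▸ h2) (card_pos.1 (h0 R hs ht))
    rw [mem_filter] at ha hb
    exact H a b (hR a ha.1 ha.2).2 (hR b hb.1 hb.2).2 ⟨R, hs, ht, fun d hd ho => h d (mem_filter.2 ⟨hd, ho⟩)⟩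
  let Q : Dt → (Set V → Prop) → Prop := fun g p => ∃ Z g', s ∈ Z ∧ t ∉ Z ∧ (∀ d ∈ X, out tl Z d → d = g ∨ d = g') ∧
    ¬K tl X s t g' g' ∧ ¬Bn g' ∧ p Z
  let lo : Set V → Prop := fun Z => ∀ d ∈ X, out tl R d → tl d ∈ Z
  let hi : Set V → Prop := fun Z => ∀ d ∈ X, out tl R d → tl (rv d) ∉ Z
  have ty : ∀ g ∈ X.filter (out tl R), Q g lo ∨ Q g hi := by
    intro g hg
    rw [mem_filter] at hg
    obtain ⟨c | ⟨g', c1, c2⟩, b⟩ := hR g hg.1 hg.2
    · exact (H g g b b c).elim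
    have nb : ¬Bn g' := fun h => H g g' b h c2
    obtain ⟨Z, z1, z2, z3⟩ := c2
    by_cases hg' : tl g' ∈ R
    · refine Or.inr ⟨Z, g', z1, z2, z3, c1, nb, fun d hd ho h => ?_⟩
      refine (sub (R ∪ Z) (Or.inl hs) (fun h => h.elim ht z2) (fun e he h => ?_) d hd ho).2 (Or.inr h)
      obtain ⟨h1 | h1, h2⟩ := h
      · exact ⟨h1, fun h => h2 (Or.inl h)⟩
      · rcases z3 e he ⟨h1, fun h => h2 (Or.inr h)⟩ with rfl | rfl
        · exact hg.2
        · exact ⟨hg', fun h => h2 (Or.inl h)⟩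
    · refine Or.inl ⟨Z, g', z1, z2, z3, c1, nb, fun d hd ho => ?_⟩
      refine (sub (R ∩ Z) ⟨hs, z1⟩ (fun h => ht h.1) (fun e he h => ?_) d hd ho).1.2
      obtain ⟨h1, h2⟩ := h
      refine ⟨h1.1, fun h => ?_⟩
      rcases z3 e he ⟨h1.2, fun h' => h2 ⟨h, h'⟩⟩ with rfl | rfl
      · exact hg.2.2 h
      · exact hg' h1.1
  have ll : ∀ a ∈ X.filter (out tl R), ∀ b ∈ X.filter (out tl R), a ≠ b → Q a lo → Q b lo → False := by
    rintro a ha b hb hab ⟨Y, a', y1, y2, y3, y4, y5, y6⟩ ⟨Z, b', z1, z2, z3, z4, z5, z6⟩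
    rw [mem_filter] at ha hb
    have Ba := (hR a ha.1 ha.2).2
    have Bb := (hR b hb.1 hb.2).2
    have e1 : tl (rv b) ∈ Y := by
      by_contra h
      rcases y3 b hb.1 ⟨y6 b hb.1 hb.2, h⟩ with rfl | rfl
      exacts [hab rfl, y5 Bb]
    have e2 : tl (rv a) ∈ Z := by
      by_contra h
      rcases z3 a ha.1 ⟨z6 a ha.1 ha.2, h⟩ with rfl | rfl
      exacts [hab rfl, z5 Ba]
    have u : ∀ d ∈ X, out tl (Y ∪ Z) d → d = a' ∨ d = b' := by
      rintro d hd ⟨h1 | h1, h2⟩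
      · rcases y3 d hd ⟨h1, fun h => h2 (Or.inl h)⟩ with rfl | rfl
        exacts [(h2 (Or.inr e2)).elim, Or.inl rfl]
      · rcases z3 d hd ⟨h1, fun h => h2 (Or.inr h)⟩ with rfl | rfl
        exacts [(h2 (Or.inl e1)).elim, Or.inr rfl]
    have hU : s ∈ Y ∪ Z := Or.inl y1
    have hU' : t ∉ Y ∪ Z := fun h => h.elim y2 z2
    have ua : out tl (Y ∪ Z) a' := by
      by_contra h
      exact z4 ⟨_, hU, hU', fun d hd ho => (u d hd ho).elim (fun e => (h (e ▸ ho)).elim) Or.inl⟩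
    have ub : out tl (Y ∪ Z) b' := by
      by_contra h
      exact y4 ⟨_, hU, hU', fun d hd ho => (u d hd ho).elim Or.inl fun e => (h (e ▸ ho)).elim⟩
    have ne : a' ≠ b' := by rintro rfl; exact y4 ⟨_, hU, hU', u⟩
    refine H a b Ba Bb ⟨Y ∩ Z, ⟨y1, z1⟩, fun h => y2 h.1, fun d hd ⟨h1, h2⟩ => ?_⟩
    by_cases h : tl (rv d) ∈ Y
    · rcases z3 d hd ⟨h1.2, fun h' => h2 ⟨h, h'⟩⟩ with rfl | rfl
      exacts [Or.inr rfl, (ub.2 (Or.inl h)).elim]
    · rcases y3 d hd ⟨h1.1, h⟩ with rfl | rfl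
      · exact Or.inl rfl
      · rcases z3 d hd ⟨h1.2, fun h => ua.2 (Or.inr h)⟩ with rfl | rfl
        exacts [Or.inr rfl, (ne rfl).elim]
  have hh : ∀ a ∈ X.filter (out tl R), ∀ b ∈ X.filter (out tl R), a ≠ b → Q a hi → Q b hi → False := by
    rintro a ha b hb hab ⟨Y, a', y1, y2, y3, y4, y5, y6⟩ ⟨Z, b', z1, z2, z3, z4, z5, z6⟩
    rw [mem_filter] at ha hb
    have Ba := (hR a ha.1 ha.2).2
    have Bb := (hR b hb.1 hb.2).2
    have e1 : tl b ∉ Y := by
      intro h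
      rcases y3 b hb.1 ⟨h, y6 b hb.1 hb.2⟩ with rfl | rfl
      exacts [hab rfl, y5 Bb]
    have e2 : tl a ∉ Z := by
      intro h
      rcases z3 a ha.1 ⟨h, z6 a ha.1 ha.2⟩ with rfl | rfl
      exacts [hab rfl, z5 Ba]
    have u : ∀ d ∈ X, out tl (Y ∩ Z) d → d = a' ∨ d = b' := by
      rintro d hd ⟨h1, h2⟩
      by_cases h : tl (rv d) ∈ Y
      · rcases z3 d hd ⟨h1.2, fun h' => h2 ⟨h, h'⟩⟩ with rfl | rfl
        exacts [(e1 h1.1).elim, Or.inr rfl]
      · rcases y3 d hd ⟨h1.1, h⟩ with rfl | rfl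
        exacts [(e2 h1.2).elim, Or.inl rfl]
    have hU : s ∈ Y ∩ Z := ⟨y1, z1⟩
    have hU' : t ∉ Y ∩ Z := fun h => y2 h.1
    have ua : out tl (Y ∩ Z) a' := by
      by_contra h
      exact z4 ⟨_, hU, hU', fun d hd ho => (u d hd ho).elim (fun e => (h (e ▸ ho)).elim) Or.inl⟩
    have ub : out tl (Y ∩ Z) b' := by
      by_contra h
      exact y4 ⟨_, hU, hU', fun d hd ho => (u d hd ho).elim Or.inl fun e => (h (e ▸ ho)).elim⟩
    have ne : a' ≠ b' := by rintro rfl; exact y4 ⟨_, hU, hU', u⟩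
    refine H a b Ba Bb ⟨Y ∪ Z, Or.inl y1, fun h => h.elim y2 z2, fun d hd ⟨h1, h2⟩ => ?_⟩
    rcases h1 with h1 | h1
    · rcases y3 d hd ⟨h1, fun h => h2 (Or.inl h)⟩ with rfl | rfl
      · exact Or.inl rfl
      · rcases z3 d hd ⟨ua.1.2, fun h => h2 (Or.inr h)⟩ with rfl | rfl
        exacts [Or.inr rfl, (ne rfl).elim]
    · rcases z3 d hd ⟨h1, fun h => h2 (Or.inr h)⟩ with rfl | rfl
      · exact Or.inr rfl
      · rcases y3 d hd ⟨ub.1.1, fun h => h2 (Or.inl h)⟩ with rfl | rfl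
        exacts [Or.inl rfl, (ne rfl).elim]
  obtain ⟨a, b, c, ha, hb, hc, h1, h2, h3⟩ := two_lt_card_iff.1 (show 2 < (X.filter (out tl R)).card by omega)
  rcases ty a ha with x | x <;> rcases ty b hb with y | y <;> rcases ty c hc with z | z
  exacts [ll a ha b hb h1 x y, ll a ha b hb h1 x y, ll a ha c hc h2 x z, hh b hb c hc h3 y z,
    ll b hb c hc h3 y z, hh a ha c hc h2 x z, hh a ha b hb h1 x y, hh a ha b hb h1 x y]

def sel (v : ℕ → Bool) (d : Dt) : Prop := v d.1 = d.2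

theorem sel_rv (v : ℕ → Bool) (d : Dt) : sel v (rv d) ↔ ¬sel v d := by
  simp only [sel, rv]; cases v d.1 <;> cases d.2 <;> simp

theorem not_conn {X : Finset Dt} {s t : V} (h : ¬Conn tl X s t 1) : ∃ R, s ∈ R ∧ t ∉ R ∧ ∀ d ∈ X, ¬out tl R d := by
  simp only [Conn, not_forall, not_le, Nat.lt_one_iff, card_eq_zero, filter_eq_empty_iff] at h
  obtain ⟨R, h1, h2, h3⟩ := h
  exact ⟨R, h1, h2, fun d hd => h3 hd⟩

theorem Flow.K_mem {X S : Finset Dt} {s t : V} (h : Flow tl S s t 1) (hS : S ⊆ X) {Z : Set V} (h1 : s ∈ Z) (h2 : t ∉ Z) :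
    ∃ d ∈ S, d ∈ X ∧ out tl Z d := by
  obtain ⟨d, hd⟩ := card_pos.1 (h.conn Z h1 h2)
  rw [mem_filter] at hd
  exact ⟨d, hd.1, hS hd.1, hd.2⟩

theorem main {X : Finset Dt} {s t s' t' : V} :
    (∃ v, Conn tl (X.filter (sel v)) s t 1 ∧ Conn tl (X.filter (sel v)) s' t' 2) ↔
      Conn tl X s t 1 ∧ Conn tl X s' t' 2 ∧ ∃ v, ∀ a ∈ X, ∀ b ∈ X, ¬sel v a → ¬sel v b →
        Conn tl (X \ {a, b}) s t 1 ∧ Conn tl (X \ {a, b}) s' t' 2 := by
  constructor
  · rintro ⟨v, h1, h2⟩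
    refine ⟨h1.mono (filter_subset _ _), h2.mono (filter_subset _ _), v, fun a _ b _ ha hb => ?_⟩
    have : X.filter (sel v) ⊆ X \ {a, b} := fun d hd => by
      simp only [mem_filter, mem_sdiff, mem_insert, mem_singleton] at hd ⊢
      exact ⟨hd.1, by rintro (rfl | rfl); exacts [ha hd.2, hb hd.2]⟩
    exact ⟨h1.mono this, h2.mono this⟩
  rintro ⟨c1, c2, v, hv⟩
  have H0 : ∀ a ∈ X, ∀ b ∈ X, ¬sel v a → ¬sel v b → ¬K tl X s t a b := by
    rintro a ha b hb x y ⟨Z, z1, z2, z3⟩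
    obtain ⟨d, hd⟩ := card_pos.1 ((hv a ha b hb x y).1 Z z1 z2)
    simp only [mem_filter, mem_sdiff, mem_insert, mem_singleton] at hd
    exact hd.1.2 (z3 d hd.1.1 hd.2)
  have H : ∀ a b, ¬sel v a → ¬sel v b → ¬K tl X s t a b := by
    rintro a b x y ⟨Z, z1, z2, z3⟩
    obtain ⟨d, hd⟩ := card_pos.1 (c1 Z z1 z2)
    rw [mem_filter] at hd
    by_cases ha : a ∈ X <;> by_cases hb : b ∈ X
    · exact H0 a ha b hb x y ⟨Z, z1, z2, z3⟩
    · exact H0 a ha a ha x x ⟨Z, z1, z2, fun e he h => (z3 e he h).elim Or.inl fun h => (hb (h ▸ he)).elim⟩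
    · exact H0 b hb b hb y y ⟨Z, z1, z2, fun e he h => (z3 e he h).elim (fun h => (ha (h ▸ he)).elim) Or.inl⟩
    · rcases z3 d hd.1 hd.2 with rfl | rfl
      exacts [ha hd.1, hb hd.1]
  have q1 : Conn tl (X.filter fun d => ¬(crit tl X s t d ∧ ¬sel v d)) s t 1 := by
    by_contra h
    obtain ⟨R, r1, r2, r3⟩ := not_conn h
    refine claim1 c1 H _ R rfl r1 r2 fun d hd ho => ?_
    by_contra hh
    exact r3 d (mem_filter.2 ⟨hd, hh⟩) ho
  obtain ⟨Q, Q1, Q2, Q3⟩ := exists_flow q1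
  have QX : Q ⊆ X := Q1.trans (filter_subset _ _)
  let b2 : Dt → Prop := fun d => rv d ∈ Q ∧ crit tl X s t (rv d)
  have q2 : Conn tl (X.filter fun d => ¬b2 d) s' t' 2 := by
    intro T h1 h2
    set F := X.filter fun d => out tl T d ∧ b2 d with hF
    by_cases h : F.card ≤ 2
    · rcases F.eq_empty_or_nonempty with e | e
      · refine (c2 T h1 h2).trans (card_le_card fun d hd => ?_)
        simp only [mem_filter] at hd ⊢
        refine ⟨⟨hd.1, fun hb => ?_⟩, hd.2⟩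
        have : d ∈ F := mem_filter.2 ⟨hd.1, hd.2, hb⟩
        simp [e] at this
      · obtain ⟨a, ha, b, hb, hab⟩ := two_cover h e
        have ns : ∀ a ∈ F, ¬sel v a := fun a ha => by
          have h1 := (mem_filter.1 ha).2.2
          have h2 := (mem_filter.1 (Q1 h1.1)).2
          rw [← sel_rv]; by_contra hh; exact h2 ⟨h1.2, by rwa [sel_rv, not_not, ← rv_rv a, sel_rv] ⟩
        refine ((hv a (mem_filter.1 ha).1 b (mem_filter.1 hb).1 (ns a ha) (ns b hb)).2 T h1 h2).trans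
          (card_le_card fun d hd => ?_)
        simp only [mem_filter, mem_sdiff, mem_insert, mem_singleton] at hd ⊢
        exact ⟨⟨hd.1.1, fun hb => hd.1.2 (hab d (mem_filter.2 ⟨hd.1.1, hd.2, hb⟩))⟩, hd.2⟩
    · have e1 : F.card ≤ (Q.filter fun d => out tl T (rv d)).card :=
        card_le_card_of_injOn rv (fun d hd => by
          simp only [hF, coe_filter, Set.mem_ofPred_eq, rv_rv] at hd ⊢; exact ⟨hd.2.2.1, hd.2.1⟩)
          (fun a _ b _ h => by rw [← rv_rv a, h, rv_rv])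
      have e2 := Q2 T
      rw [val_eq] at e2
      have e3 : (Q.filter (out tl T)).card ≤ ((X.filter fun d => ¬b2 d).filter (out tl T)).card :=
        card_le_card fun d hd => by
          simp only [mem_filter] at hd ⊢; exact ⟨⟨QX hd.1, fun h => Q3 d hd.1 h.1⟩, hd.2⟩
      simp only [ind] at e2
      split_ifs at e2 <;> omega
  obtain ⟨S, S1, S2, S3⟩ := exists_flow q2
  have SX : S ⊆ X := S1.trans (filter_subset _ _)
  have q3 : Conn tl (X.filter fun d => rv d ∉ S) s t 1 := by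
    by_contra h
    obtain ⟨R, r1, r2, r3⟩ := not_conn h
    have r4 : ∀ d ∈ X, out tl R d → rv d ∈ S := fun d hd ho => by
      by_contra hh; exact r3 d (mem_filter.2 ⟨hd, hh⟩) ho
    have e1 : (X.filter (out tl R)).card ≤ (S.filter fun d => out tl R (rv d)).card :=
      card_le_card_of_injOn rv (fun d hd => by
        simp only [coe_filter, Set.mem_ofPred_eq, rv_rv] at hd ⊢; exact ⟨r4 d hd.1 hd.2, hd.2⟩)
        (fun a _ b _ h => by rw [← rv_rv a, h, rv_rv])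
    have e2 := S2 R
    rw [val_eq, filter_false_of_mem fun d hd ho => S3 d hd (r4 d (SX hd) ho)] at e2
    have e3 : (X.filter (out tl R)).card ≤ 2 := by
      simp only [ind, card_empty] at e2
      split_ifs at e2 <;> omega
    have fin : ∀ d ∈ Q, out tl R d → ¬crit tl X s t d := fun d hd ho hc =>
      (mem_filter.1 (S1 (r4 d (QX hd) ho))).2 (by simp only [b2, rv_rv]; exact ⟨hd, hc⟩)
    obtain ⟨d, d1, d2, d3⟩ := Q2.K_mem QX r1 r2
    obtain ⟨a, ha, b, hb, hab⟩ := two_cover e3 ⟨d, mem_filter.2 ⟨d2, d3⟩⟩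
    have un : ∀ a ∈ X.filter (out tl R), ¬K tl X s t a a := by
      rintro a ha ⟨Z, z1, z2, z3⟩
      obtain ⟨e, e1, e2, e3⟩ := Q2.K_mem QX z1 z2
      obtain rfl : e = a := by simpa using z3 e e2 e3
      exact fin e e1 (mem_filter.1 ha).2 (Or.inl ⟨Z, z1, z2, z3⟩)
    rcases hab d (mem_filter.2 ⟨d2, d3⟩) with rfl | rfl
    · exact fin d d1 d3 (Or.inr ⟨b, un b hb, R, r1, r2, fun e he ho => hab e (mem_filter.2 ⟨he, ho⟩)⟩)
    · exact fin d d1 d3 (Or.inr ⟨a, un a ha, R, r1, r2, fun e he ho => (hab e (mem_filter.2 ⟨he, ho⟩)).symm⟩)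
  obtain ⟨P, P1, P2, P3⟩ := exists_flow q3
  have key : ∀ d, d ∈ S ∨ d ∈ P → sel (fun i => decide ((i, true) ∈ S ∨ (i, true) ∈ P)) d := by
    rintro ⟨i, b⟩ hd
    cases b
    · simp only [sel, decide_eq_false_iff_not]
      have e : (i, true) = rv (i, false) := rfl
      have e' : (i, false) = rv (i, true) := rfl
      rintro (h | h) <;> rcases hd with hd | hd
      · exact S3 _ hd (e ▸ h)
      · exact (mem_filter.1 (P1 hd)).2 (e ▸ h)
      · exact (mem_filter.1 (P1 h)).2 (e' ▸ hd)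
      · exact P3 _ hd (e ▸ h)
    · simpa [sel] using hd
  exact ⟨_, P2.conn.mono fun d hd => mem_filter.2 ⟨(mem_filter.1 (P1 hd)).1, key d (Or.inr hd)⟩,
    S2.conn.mono fun d hd => mem_filter.2 ⟨SX hd, key d (Or.inl hd)⟩⟩

end Pool.Agent.H.MP_5d9c5f_lc
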